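import Pool.Agent.Y121.FC.Gen

/-!
# The sum of the squares of the dimensions of the simple representations
-/

open CategoryTheory CategoryTheory.Limits CategoryTheory.MonoidalCategory

namespace Pool.Agent.Y121.FC

open Pool.Agent.Results.MP_4aeb90_al.NoUniformBound

set_option linter.unusedSectionVars false

noncomputable section

variable {K : Type} [Group K] [Fintype K] [DecidableEq K]

/-- the map out of the regular representation as a morphism -/
def regHom (V : FDRep ℂ K) (v : V) : Reg K ⟶ V :=
  { hom := FGModuleCat.ofHom (regMap V v)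
    comm := by
      intro g
      ext f
      exact regMap_equiv V v g f }

lemma regHom_apply (V : FDRep ℂ K) (v : V) (f : K → ℂ) :
    (regHom V v).hom.hom.hom f = ∑ g : K, f g • V.ρ g v := rfl

lemma regHom_single (V : FDRep ℂ K) (v : V) :
    (regHom V v).hom.hom.hom (Pi.single 1 1 : K → ℂ) = v := by
  rw [regHom_apply, Finset.sum_eq_single 1]
  · simp
  · intro b _ hb
    simp [Pi.single_eq_of_ne hb]
  · simp

/-- evaluation of the maps out of the regular representation -/
def evOne (V : FDRep ℂ K) : (Reg K ⟶ V) →ₗ[ℂ] V where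
  toFun φ := φ.hom.hom.hom (Pi.single 1 1 : K → ℂ)
  map_add' _ _ := rfl
  map_smul' _ _ := rfl

lemma evOne_bijective (V : FDRep ℂ K) : Function.Bijective (evOne V) := by
  constructor
  · intro φ ψ h
    have hcomm : ∀ (χ : Reg K ⟶ V) (g : K) (f : K → ℂ),
        χ.hom.hom.hom (regRep g f) = V.ρ g (χ.hom.hom.hom f) := by
      intro χ g f
      have := congrArg (fun t => t.hom.hom f) (χ.comm g)
      exact this
    have hsum : ∀ f : K → ℂ, f = ∑ g : K, f g • regRep g (Pi.single 1 1 : K → ℂ) := by
      intro f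
      ext x
      simp only [Finset.sum_apply, Pi.smul_apply, smul_eq_mul]
      rw [Finset.sum_eq_single x]
      · have : regRep x (Pi.single 1 1 : K → ℂ) x = (Pi.single 1 1 : K → ℂ) (x⁻¹ * x) := rfl
        rw [this, inv_mul_cancel, Pi.single_eq_same, mul_one]
      · intro g _ hg
        have : regRep g (Pi.single 1 1 : K → ℂ) x = (Pi.single 1 1 : K → ℂ) (g⁻¹ * x) := rfl
        rw [this, Pi.single_eq_of_ne, mul_zero]
        intro h0
        exact hg (by rw [← mul_one g, ← h0, mul_inv_cancel_left])
      · simp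
    have hall : ∀ (χ : Reg K ⟶ V) (f : K → ℂ),
        χ.hom.hom.hom f = ∑ g : K, f g • V.ρ g (evOne V χ) := by
      intro χ f
      conv_lhs => rw [hsum f]
      refine (map_sum χ.hom.hom.hom _ _).trans (Finset.sum_congr rfl fun g _ => ?_)
      exact (map_smul χ.hom.hom.hom (f g) _).trans (congrArg _ (hcomm χ g _))
    ext f
    exact (hall φ f).trans ((by rw [h]) : _ = _) |>.trans (hall ψ f).symm
  · intro v
    exact ⟨regHom V v, regHom_single V v⟩

lemma finrank_reg_hom (V : FDRep ℂ K) : Module.finrank ℂ (Reg K ⟶ V) = dm V :=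
  (LinearEquiv.ofBijective (evOne V) (evOne_bijective V)).finrank_eq

theorem sum_sq {m : ℕ} (S : Fin m → FDRep ℂ K) (hS : ∀ i, Simple (S i))
    (hinj : ∀ i j, Nonempty (S i ≅ S j) → i = j)
    (hcomp : ∀ X : FDRep ℂ K, Simple X → ∃ i, Nonempty (X ≅ S i)) :
    ∑ k, (dm (S k) : ℝ) ^ 2 = Fintype.card K := by
  have h := dm_eq_sum S hS hinj hcomp (Reg K)
  have h1 : dm (Reg K) = Fintype.card K := by
    change Module.finrank ℂ (K → ℂ) = _
    simp
  rw [h1] at h
  rw [h]
  refine Finset.sum_congr rfl fun k _ => ?_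
  rw [finrank_reg_hom, sq]

theorem sum_sq_FPdim (n : ℕ) [NeZero n] {G : Type} [Group G] [Fintype G] [DecidableEq G] {r : ℕ}
    (S : Fin r → CG n G) (hS : ListsSimples S) :
    ∑ k, FPdim S (S k) ^ 2 = (n : ℝ) * (Fintype.card G : ℝ) ^ n := by
  simp only [FPdim_eq n S hS]
  refine (sum_sq (K := KG n G) S hS.simple hS.injective hS.complete).trans ?_
  rw [Fintype.card_prod, Fintype.card_fun, ZMod.card]
  have h3 : Fintype.card (Multiplicative (ZMod n)) = n := by simp [ZMod.card]
  rw [h3]
  push_cast
  ring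

end

end Pool.Agent.Y121.FC
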