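import Pool.Agent.Results.MP_4aeb90_al.NoUniformBound

/-!
# The crossed product of `Rep (G ^ n)` by `Z / n`, for a finite group `G`

Generalisation of the last section of the starting file `MP_4aeb90_al.NoUniformBound` (which treats
`G = S₃`) to all finite groups.
-/

open CategoryTheory CategoryTheory.Limits CategoryTheory.MonoidalCategory

namespace Pool.Agent.Y121.FC

open Pool.Agent.Results.MP_4aeb90_al.NoUniformBound

set_option linter.unusedSectionVars false

noncomputable section

variable (n : ℕ) [NeZero n] {G : Type} [Group G] {ι : Type} [Fintype ι] [DecidableEq ι]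
  (M : G →* Matrix ι ι ℂ)

/-- the representation underlying X -/
def rX : Representation ℂ (KG n G) (ι → ℂ) where
  toFun g := (ZMod.stdAddChar (Multiplicative.toAdd g.2) : ℂ) • Matrix.toLin' (M (g.1 0))
  map_one' := by
    simp [map_one M]; rfl
  map_mul' g h := by
    simp only [Prod.snd_mul, toAdd_mul, AddChar.map_add_eq_mul, Prod.fst_mul, Pi.mul_apply, map_mul M,
      Matrix.toLin'_mul]
    rw [Module.End.mul_eq_comp, LinearMap.smul_comp, LinearMap.comp_smul, smul_smul]

variable (G) in
/-- the category -/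
abbrev CG : Type 1 := Tw n G (FGModuleCat ℂ)

/-- the representation X -/
abbrev XA : Action (FGModuleCat ℂ) (KG n G) := FDRep.of (rX n M)

/-- the object X -/
def XX : CG n G := XA n M

lemma act_XA (g : KG n G) : act (XA n M) g = FGModuleCat.ofHom (rX n M g) := rfl

lemma rz_XA (w : ZMod n) : rz (XA n M) w = (ZMod.stdAddChar w : ℂ) • 𝟙 _ := by
  unfold rz
  rw [act_XA]
  ext v
  simp [rX, map_one M]
  rfl

/-- tensor powers at the level of actions -/
def TA : ℕ → Action (FGModuleCat ℂ) (KG n G)
  | 0 => tUnit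
  | (N + 1) => tObj (TA N) (XA n M)

lemma rz_TA (N : ℕ) (w : ZMod n) :
    rz (TA n M N) w = (ZMod.stdAddChar ((N : ZMod n) * w) : ℂ) • 𝟙 _ := by
  induction N with
  | zero =>
    simp only [Nat.cast_zero, zero_mul, AddChar.map_zero_eq_one, one_smul]
    rfl
  | succ N ih =>
    change rz (tObj (TA n M N) (XA n M)) w = _
    rw [rz_tObj, ih, rz_XA, smul_tensor, tensor_smul, smul_smul, id_tensorHom_id,
      ← AddChar.map_add_eq_mul]
    congr 2
    push_cast
    ring

lemma P_TA (N : ℕ) (i : ZMod n) : P (TA n M N) i = if i = (N : ZMod n) then 𝟙 _ else 0 := by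
  refine P_eq_of_rz (TA n M N) (fun i => if i = (N : ZMod n) then 𝟙 _ else 0) ?_ i
  intro w
  rw [rz_TA]
  simp only [smul_ite, smul_zero, Finset.sum_ite_eq', Finset.mem_univ, if_true]

lemma act_TA_succ (N : ℕ) (g : KG n G) :
    act (TA n M (N + 1)) g = act (TA n M N) g ⊗ₘ act (XA n M) (sh (N : ZMod n) g.1, g.2) := by
  change act (tObj (TA n M N) (XA n M)) g = _
  rw [act_tObj, Finset.sum_eq_single (N : ZMod n)]
  · rw [P_TA, if_pos rfl, Category.id_comp]
  · intro j _ hj
    rw [P_TA, if_neg hj]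
    simp
  · simp

lemma char_XA (g : KG n G) : FDRep.character (XA n M) g =
    (ZMod.stdAddChar (Multiplicative.toAdd g.2) : ℂ) * (M (g.1 0)).trace := by
  change LinearMap.trace ℂ (ι → ℂ) (rX n M g) = _
  simp [rX, Matrix.trace_toLin'_eq]

lemma char_TA_succ (N : ℕ) (g : KG n G) : FDRep.character (TA n M (N + 1)) g =
    FDRep.character (TA n M N) g * FDRep.character (XA n M) (sh (N : ZMod n) g.1, g.2) := by
  have h := act_TA_succ n M N g
  have h2 := congrArg (fun f : (TA n M (N+1)).V ⟶ (TA n M (N+1)).V =>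
    LinearMap.trace ℂ _ f.hom.hom) h
  refine h2.trans ?_
  exact LinearMap.trace_tensorProduct' _ _

lemma char_TA (N : ℕ) (g : KG n G) : FDRep.character (TA n M N) g =
    (ZMod.stdAddChar ((N : ZMod n) * Multiplicative.toAdd g.2) : ℂ) *
      ∏ j ∈ Finset.range N, (M (g.1 (j : ZMod n))).trace := by
  induction N with
  | zero =>
    simp only [Nat.cast_zero, zero_mul, AddChar.map_zero_eq_one, Finset.range_zero,
      Finset.prod_empty, mul_one]
    change LinearMap.trace ℂ ℂ LinearMap.id = 1
    simp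
  | succ N ih =>
    rw [char_TA_succ, ih, char_XA, Finset.prod_range_succ]
    simp only [sh, MonoidHom.coe_mk, OneHom.coe_mk, zero_add]
    push_cast
    rw [add_mul, one_mul, AddChar.map_add_eq_mul]
    ring

variable [Fintype G] [DecidableEq G]

/-- the norm of the character of the tensor power -/
theorem simple_TA_iff (N : ℕ) : Simple (TA n M N : FDRep ℂ (KG n G)) ↔
    ∑ x : ZMod n → G, ∏ j ∈ Finset.range N,
      ((M (x (j : ZMod n))).trace * (M (x (j : ZMod n))⁻¹).trace) = (Fintype.card G : ℂ) ^ n := by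
  rw [FDRep.simple_iff_char_is_norm_one]
  simp only [char_TA]
  have h1 : ∀ g : KG n G, (ZMod.stdAddChar ((N : ZMod n) * Multiplicative.toAdd g.2) : ℂ) *
      (∏ j ∈ Finset.range N, (M (g.1 (j : ZMod n))).trace) *
      ((ZMod.stdAddChar ((N : ZMod n) * Multiplicative.toAdd (g⁻¹).2) : ℂ) *
      ∏ j ∈ Finset.range N, (M ((g⁻¹).1 (j : ZMod n))).trace) =
      ∏ j ∈ Finset.range N,
        ((M (g.1 (j : ZMod n))).trace * (M (g.1 (j : ZMod n))⁻¹).trace) := by
    intro g
    rw [Finset.prod_mul_distrib]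
    have h2 : (ZMod.stdAddChar ((N : ZMod n) * Multiplicative.toAdd g.2) : ℂ) *
        (ZMod.stdAddChar ((N : ZMod n) * Multiplicative.toAdd (g⁻¹).2) : ℂ) = 1 := by
      rw [← AddChar.map_add_eq_mul]
      simp
    calc _ = ((ZMod.stdAddChar ((N : ZMod n) * Multiplicative.toAdd g.2) : ℂ) *
        (ZMod.stdAddChar ((N : ZMod n) * Multiplicative.toAdd (g⁻¹).2) : ℂ)) *
        ((∏ j ∈ Finset.range N, (M (g.1 (j : ZMod n))).trace) *
        ∏ j ∈ Finset.range N, (M ((g⁻¹).1 (j : ZMod n))).trace) := by ring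
      _ = _ := by rw [h2, one_mul]; rfl
  simp only [h1]
  rw [Fintype.sum_prod_type]
  simp only [Finset.sum_const, Finset.card_univ]
  rw [← Finset.smul_sum, Nat.card_eq_fintype_card, Fintype.card_prod, Fintype.card_fun]
  have h3 : Fintype.card (Multiplicative (ZMod n)) = n := by simp [ZMod.card]
  rw [h3, ZMod.card, nsmul_eq_mul]
  push_cast
  rw [mul_comm ((Fintype.card G : ℂ) ^ n)]
  exact mul_right_inj' nC

instance instAb : Abelian (CG n G) := inferInstanceAs (Abelian (FDRep ℂ (KG n G)))
instance instFB : HasFiniteBiproducts (CG n G) := Abelian.hasFiniteBiproducts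
instance instLin : Linear ℂ (CG n G) := inferInstanceAs (Linear ℂ (FDRep ℂ (KG n G)))

lemma simple_unit_aux : Simple (tUnit : Action (FGModuleCat ℂ) (KG n G)) := by
  have h := (simple_TA_iff n (1 : G →* Matrix (Fin 1) (Fin 1) ℂ) 0).2 (by simp)
  exact h

theorem isFusion : IsFusionCategory (CG n G) where
  finiteDimensional_hom X Y := inferInstanceAs
    (FiniteDimensional ℂ ((show FDRep ℂ (KG n G) from X) ⟶ (show FDRep ℂ (KG n G) from Y)))
  simple_unit := simple_unit_aux n
  semisimple X := semisimple (K := KG n G) X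
  finitely_many_simples := finite_simples (K := KG n G)

lemma tensorPow_eq (N : ℕ) : tensorPow (XX n M) N = (show CG n G from TA n M N) := by
  induction N with
  | zero => rfl
  | succ N ih =>
    change tensorPow (XX n M) N ⊗ XX n M = _
    rw [ih]; rfl

lemma dm_tObj (X Y : Action (FGModuleCat ℂ) (KG n G)) : dm (tObj X Y) = dm X * dm Y :=
  Module.finrank_tensorProduct (R := ℂ) (M := X) (M' := Y)

lemma dm_pos_of_simple (X : FDRep ℂ (KG n G)) (hX : Simple X) : 0 < dm X := by
  rcases Nat.eq_zero_or_pos (dm X) with h | h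
  · exact absurd (isZero_of_dm h) (Simple.not_isZero X)
  · exact h

/-- dimension of the underlying vector space -/
def dmC (X : CG n G) : ℕ := dm (K := KG n G) X

lemma dmC_tensor (X Y : CG n G) : dmC n (X ⊗ Y) = dmC n X * dmC n Y := dm_tObj n X Y

theorem FP_isGreatest {r : ℕ} (S : Fin r → CG n G) (hS : ListsSimples S) (X : CG n G) :
    IsGreatest {t : ℝ | ∃ w : Fin r → ℝ, w ≠ 0 ∧ (leftMultMatrix S X).mulVec w = t • w}
      (dmC n X : ℝ) := by
  set d : Fin r → ℝ := fun k => (dmC n (S k) : ℝ) with hd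
  have hdpos : ∀ k, 0 < d k := fun k => Nat.cast_pos.mpr (dm_pos_of_simple n _ (hS.simple k))
  have key : ∀ Y : CG n G, (dmC n Y : ℝ) =
      ∑ k, (Module.finrank ℂ (Y ⟶ S k) : ℝ) * d k := fun Y =>
    dm_eq_sum (K := KG n G) S hS.simple hS.injective hS.complete Y
  have key2 : ∀ j, ∑ k, leftMultMatrix S X j k * d k = (dmC n X : ℝ) * d j := by
    intro j
    have h1 := key (X ⊗ S j)
    rw [dmC_tensor, Nat.cast_mul] at h1
    rw [hd]
    simp only
    rw [h1]
    rfl
  obtain ⟨i0, _⟩ := hS.complete (𝟙_ (CG n G)) (isFusion n).simple_unit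
  constructor
  · refine ⟨d, ?_, ?_⟩
    · intro h0
      have := hdpos i0
      rw [h0] at this
      simp at this
    · ext j
      simp only [Matrix.mulVec, dotProduct, Pi.smul_apply, smul_eq_mul]
      exact key2 j
  · rintro t ⟨w, hw, hMw⟩
    have : Nonempty (Fin r) := ⟨i0⟩
    obtain ⟨j0, hj0⟩ := Finite.exists_max (fun j => |w j| / d j)
    obtain ⟨j1, hj1⟩ : ∃ j1, w j1 ≠ 0 := by
      by_contra hcon
      push Not at hcon
      exact hw (funext hcon)
    have hpos : 0 < |w j0| / d j0 :=
      lt_of_lt_of_le (div_pos (abs_pos.mpr hj1) (hdpos j1)) (hj0 j1)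
    have hw0 : 0 < |w j0| := by
      by_contra hcon
      have : |w j0| = 0 := le_antisymm (not_lt.mp hcon) (abs_nonneg _)
      rw [this] at hpos
      simp at hpos
    have hle : ∀ k, |w k| ≤ (|w j0| / d j0) * d k := fun k => by
      have := hj0 k
      rwa [div_le_iff₀ (hdpos k)] at this
    have h1 : t * w j0 = ∑ k, leftMultMatrix S X j0 k * w k := by
      have := congrFun hMw j0
      simp only [Matrix.mulVec, dotProduct, Pi.smul_apply, smul_eq_mul] at this
      exact this.symm
    have h2 : |t| * |w j0| ≤ (dmC n X : ℝ) * |w j0| := by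
      rw [← abs_mul, h1]
      calc |∑ k, leftMultMatrix S X j0 k * w k| ≤ ∑ k, |leftMultMatrix S X j0 k * w k| :=
            Finset.abs_sum_le_sum_abs _ _
        _ ≤ ∑ k, leftMultMatrix S X j0 k * ((|w j0| / d j0) * d k) := by
            refine Finset.sum_le_sum (fun k _ => ?_)
            rw [abs_mul, abs_of_nonneg (show 0 ≤ leftMultMatrix S X j0 k from Nat.cast_nonneg _)]
            exact mul_le_mul_of_nonneg_left (hle k) (Nat.cast_nonneg _)
        _ = (|w j0| / d j0) * ∑ k, leftMultMatrix S X j0 k * d k := by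
            rw [Finset.mul_sum]
            refine Finset.sum_congr rfl (fun k _ => by ring)
        _ = (dmC n X : ℝ) * |w j0| := by
            rw [key2]
            have := (hdpos j0).ne'
            field_simp
    exact le_trans (le_abs_self t) (le_of_mul_le_mul_right h2 hw0)

theorem FPdim_eq {r : ℕ} (S : Fin r → CG n G) (hS : ListsSimples S) (X : CG n G) :
    FPdim S X = dmC n X := by
  unfold FPdim
  rw [(FP_isGreatest n S hS X).csSup_eq]

theorem FPdim_XX {r : ℕ} (S : Fin r → CG n G) (hS : ListsSimples S) :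
    FPdim S (XX n M) = Fintype.card ι := by
  rw [FPdim_eq n S hS]
  have : dmC n (XX n M) = Fintype.card ι := by
    change Module.finrank ℂ (ι → ℂ) = _
    simp
  exact_mod_cast this

/-- a complete irredundant list of simple objects exists -/
theorem exists_listsSimples : ∃ (r : ℕ) (S : Fin r → CG n G), ListsSimples S := by
  classical
  obtain ⟨m, S, hS⟩ := (isFusion (G := G) n).finitely_many_simples
  let s : Setoid {i : Fin m // Simple (S i)} :=
    { r := fun i j => Nonempty (S i.1 ≅ S j.1)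
      iseqv :=
        { refl := fun i => ⟨Iso.refl _⟩
          symm := fun ⟨e⟩ => ⟨e.symm⟩
          trans := fun ⟨e⟩ ⟨f⟩ => ⟨e ≪≫ f⟩ } }
  let e := (Fintype.equivFin (Quotient s)).symm
  refine ⟨Fintype.card (Quotient s), fun k => S (e k).out.1, ?_, ?_, ?_⟩
  · intro i
    exact (e i).out.2
  · rintro i j ⟨f⟩
    have h1 : (⟦(e i).out⟧ : Quotient s) = ⟦(e j).out⟧ := Quotient.sound ⟨f⟩
    rw [Quotient.out_eq, Quotient.out_eq] at h1
    exact e.injective h1
  · intro X hX
    obtain ⟨i, ⟨f⟩⟩ := hS X hX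
    have hi : Simple (S i) := Simple.of_iso f.symm
    let q : Quotient s := ⟦⟨i, hi⟩⟧
    refine ⟨e.symm q, ?_⟩
    have h2 : (⟦q.out⟧ : Quotient s) = ⟦⟨i, hi⟩⟧ := Quotient.out_eq q
    obtain ⟨g⟩ := Quotient.exact h2
    simp only [Equiv.apply_symm_apply]
    exact ⟨f ≪≫ g.symm⟩

end

end Pool.Agent.Y121.FC
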