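import Pool.Agent.Y121.FC.Gen

/-!
# The Heisenberg groups
-/

namespace Pool.Agent.Y121.FC

open Pool.Agent.Results.MP_4aeb90_al.NoUniformBound

noncomputable section

/-- The Heisenberg group of order `d ^ 3`. -/
@[ext] structure Heis (d : ℕ) where
  a : ZMod d
  b : ZMod d
  c : ZMod d

namespace Heis

variable {d : ℕ}

instance : Mul (Heis d) := ⟨fun x y => ⟨x.a + y.a, x.b + y.b, x.c + y.c + x.a * y.b⟩⟩
instance : One (Heis d) := ⟨⟨0, 0, 0⟩⟩
instance : Inv (Heis d) := ⟨fun x => ⟨-x.a, -x.b, -x.c + x.a * x.b⟩⟩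

@[simp] lemma mul_a (x y : Heis d) : (x * y).a = x.a + y.a := rfl
@[simp] lemma mul_b (x y : Heis d) : (x * y).b = x.b + y.b := rfl
@[simp] lemma mul_c (x y : Heis d) : (x * y).c = x.c + y.c + x.a * y.b := rfl
@[simp] lemma one_a : (1 : Heis d).a = 0 := rfl
@[simp] lemma one_b : (1 : Heis d).b = 0 := rfl
@[simp] lemma one_c : (1 : Heis d).c = 0 := rfl
@[simp] lemma inv_a (x : Heis d) : x⁻¹.a = -x.a := rfl
@[simp] lemma inv_b (x : Heis d) : x⁻¹.b = -x.b := rfl
@[simp] lemma inv_c (x : Heis d) : x⁻¹.c = -x.c + x.a * x.b := rfl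

instance : Group (Heis d) :=
  Group.ofLeftAxioms
    (fun x y z => by ext <;> simp <;> ring)
    (fun x => by ext <;> simp)
    (fun x => by ext <;> simp)

/-- the Heisenberg group as a product -/
def equiv : Heis d ≃ ZMod d × ZMod d × ZMod d where
  toFun x := (x.a, x.b, x.c)
  invFun y := ⟨y.1, y.2.1, y.2.2⟩
  left_inv _ := rfl
  right_inv _ := rfl

variable [NeZero d]

instance : Fintype (Heis d) := Fintype.ofEquiv _ equiv.symm
instance : DecidableEq (Heis d) := Classical.decEq _

lemma card_eq : Fintype.card (Heis d) = d ^ 3 := by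
  rw [Fintype.card_congr equiv, Fintype.card_prod, Fintype.card_prod, ZMod.card]
  ring

/-- the Schroedinger representation -/
def M : Heis d →* Matrix (ZMod d) (ZMod d) ℂ where
  toFun g := fun i j => if j = i + g.a then (ZMod.stdAddChar (g.c + g.b * i) : ℂ) else 0
  map_one' := by
    ext i j
    simp [Matrix.one_apply, eq_comm]
  map_mul' g h := by
    ext i k
    rw [Matrix.mul_apply, Finset.sum_eq_single (i + g.a)]
    · rw [if_pos rfl]
      by_cases hk : k = i + g.a + h.a
      · rw [if_pos hk, if_pos (by rw [hk, mul_a, add_assoc]), ← AddChar.map_add_eq_mul]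
        congr 1
        simp only [mul_c, mul_b]
        ring
      · rw [if_neg hk, if_neg (by rw [mul_a, ← add_assoc]; exact hk), mul_zero]
    · intro j _ hj
      rw [if_neg hj, zero_mul]
    · simp

lemma trace_M (g : Heis d) : (M g).trace =
    if g.a = 0 ∧ g.b = 0 then (ZMod.stdAddChar g.c : ℂ) * d else 0 := by
  have h1 : (M g).trace = ∑ i : ZMod d,
      if i = i + g.a then (ZMod.stdAddChar (g.c + g.b * i) : ℂ) else 0 := rfl
  rw [h1]
  by_cases ha : g.a = 0
  · have h2 : ∀ i : ZMod d, i = i + g.a := fun i => by rw [ha, add_zero]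
    simp only [if_pos (h2 _), AddChar.map_add_eq_mul, ← Finset.mul_sum, sum_char]
    by_cases hb : g.b = 0
    · rw [if_pos hb, if_pos ⟨ha, hb⟩]
    · rw [if_neg hb, if_neg (fun h => hb h.2), mul_zero]
  · rw [if_neg (fun h => ha h.1)]
    refine Finset.sum_eq_zero fun i _ => if_neg fun h => ha ?_
    have := congrArg (fun x => x - i) h
    simpa using this.symm

lemma cc_M (g : Heis d) : (M g).trace * (M g⁻¹).trace =
    (d : ℂ) ^ 2 * (if g.a = 0 ∧ g.b = 0 then 1 else 0) := by
  rw [trace_M, trace_M]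
  by_cases h : g.a = 0 ∧ g.b = 0
  · have h' : g⁻¹.a = 0 ∧ g⁻¹.b = 0 := by simp [h.1, h.2]
    rw [if_pos h, if_pos h', if_pos h]
    have h2 : (ZMod.stdAddChar g.c : ℂ) * (ZMod.stdAddChar g⁻¹.c : ℂ) = 1 := by
      rw [← AddChar.map_add_eq_mul]
      simp [h.1]
    linear_combination (d : ℂ) ^ 2 * h2
  · rw [if_neg h, if_neg h]
    ring

lemma card_centre : ∑ g : Heis d, (if g.a = 0 ∧ g.b = 0 then (1 : ℂ) else 0) = d := by
  rw [← Equiv.sum_comp equiv.symm, Fintype.sum_prod_type]
  simp only [Fintype.sum_prod_type]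
  rw [Finset.sum_eq_single 0, Finset.sum_eq_single 0]
  · simp [equiv, ZMod.card]
  · intro b _ hb
    refine Finset.sum_eq_zero fun c _ => if_neg fun h => hb h.2
  · simp
  · intro a _ ha
    refine Finset.sum_eq_zero fun b _ => Finset.sum_eq_zero fun c _ => if_neg fun h => ha h.1
  · simp

end Heis

open Heis

variable (d n : ℕ) [NeZero d] [NeZero n]

lemma sum_heis (N : ℕ) :
    ∑ x : ZMod n → Heis d, ∏ j ∈ Finset.range N,
      ((M (x (j : ZMod n))).trace * (M (x (j : ZMod n))⁻¹).trace) =
      (d : ℂ) ^ (2 * N) * ((d : ℂ) ^ (min N n) * (d : ℂ) ^ (3 * (n - N))) := by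
  simp only [cc_M, Finset.prod_mul_distrib, Finset.prod_const, Finset.card_range, ← pow_mul,
    ← Finset.mul_sum]
  congr 1
  have h1 : ∀ x : ZMod n → Heis d, (∏ j ∈ Finset.range N,
      if (x (j : ZMod n)).a = 0 ∧ (x (j : ZMod n)).b = 0 then (1 : ℂ) else 0) =
      ∏ k : ZMod n, if k.val < N then (if (x k).a = 0 ∧ (x k).b = 0 then (1 : ℂ) else 0) else 1 := by
    intro x
    have h2 : ∀ k : ZMod n, (if k.val < N then (if (x k).a = 0 ∧ (x k).b = 0 then (1 : ℂ) else 0)
        else 1) = if (k.val < N → (x k).a = 0 ∧ (x k).b = 0) then 1 else 0 := by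
      intro k
      by_cases h : k.val < N
      · simp [h]
      · simp [h]
    simp only [h2, Finset.prod_boole]
    congr 1
    refine propext ⟨fun h k _ hk => ?_, fun h j hj => ?_⟩
    · have := h k.val (Finset.mem_range.2 hk)
      rwa [ZMod.natCast_zmod_val] at this
    · refine h (j : ZMod n) (Finset.mem_univ _) ?_
      rw [ZMod.val_natCast]
      exact (Nat.mod_le _ _).trans_lt (Finset.mem_range.1 hj)
  simp only [h1]
  have h2 := Finset.prod_univ_sum (fun _ : ZMod n => (Finset.univ : Finset (Heis d)))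
    (fun k σ => if k.val < N then (if σ.a = 0 ∧ σ.b = 0 then (1 : ℂ) else 0) else (1 : ℂ))
  rw [Fintype.piFinset_univ] at h2
  rw [← h2]
  have h3 : ∀ k : ZMod n, ∑ σ : Heis d, (if k.val < N then
      (if σ.a = 0 ∧ σ.b = 0 then (1 : ℂ) else 0) else (1 : ℂ)) =
      if k.val < N then (d : ℂ) else (d : ℂ) ^ 3 := by
    intro k
    split_ifs
    · exact card_centre
    · rw [Finset.sum_const, Finset.card_univ, card_eq]
      simp
  simp only [h3]
  rw [Finset.prod_ite, Finset.prod_const, Finset.prod_const, ← pow_mul]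
  have h4 : (Finset.univ.filter fun k : ZMod n => k.val < N).card = min N n := by
    refine (((Finset.card_range (min N n)).symm.trans
      (Finset.card_bij (fun (j : ℕ) _ => (j : ZMod n)) ?_ ?_ ?_))).symm
    · intro j hj
      have hj' := Finset.mem_range.1 hj
      simp only [Finset.mem_filter, Finset.mem_univ, true_and]
      rw [ZMod.val_cast_of_lt (by omega)]
      omega
    · intro i hi j hj hij
      have hi' := Finset.mem_range.1 hi
      have hj' := Finset.mem_range.1 hj
      have h := congrArg ZMod.val hij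
      rwa [ZMod.val_cast_of_lt (by omega), ZMod.val_cast_of_lt (by omega)] at h
    · intro k hk
      have hk' : k.val < N := by simpa using hk
      have hk2 := ZMod.val_lt k
      exact ⟨k.val, Finset.mem_range.2 (by omega), ZMod.natCast_zmod_val k⟩
  have h5 : (Finset.univ.filter fun k : ZMod n => ¬ k.val < N).card = n - N := by
    have h6 := Finset.card_filter_add_card_filter_not (s := (Finset.univ : Finset (ZMod n)))
      (fun k : ZMod n => k.val < N)
    rw [h4, Finset.card_univ, ZMod.card] at h6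
    omega
  rw [h4, h5]

theorem simple_pow_iff (hd : 2 ≤ d) (N : ℕ) : CategoryTheory.Simple (tensorPow (XX n (M (d := d))) N) ↔ N ≤ n := by
  rw [tensorPow_eq]
  refine (simple_TA_iff n (M (d := d)) N).trans ?_
  rw [sum_heis, card_eq, ← pow_add, ← pow_add]
  push_cast
  rw [← pow_mul]
  have h1 : ((d : ℂ) ^ (2 * N + (min N n + 3 * (n - N))) = (d : ℂ) ^ (3 * n)) ↔
      2 * N + (min N n + 3 * (n - N)) = 3 * n := by
    constructor
    · intro h
      have h' : d ^ (2 * N + (min N n + 3 * (n - N))) = d ^ (3 * n) := by exact_mod_cast h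
      exact Nat.pow_right_injective hd h'
    · intro h
      rw [h]
  rw [h1]
  omega

end

end Pool.Agent.Y121.FC
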